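import Mathlib
import Pool.Agent.TOL.Claim
import Pool.Agent.TOL.Final

open TopologicalSpace
open scoped unitInterval
open Pool.Agent.Helper17 Pool.Agent.TOR Pool.Agent.TOL

namespace Pool.Agent.Results.MP_ec5dc5_gt.TorusLoops

/-- Let `G = Symp_ct(ℝ^{2n})` and let `S` be the group of symplectomorphisms of the torus
`ℝ^{2n} / Λ`, `Λ` the lattice with basis `b` (lifted to `ℝ^{2n}`). For `0 ≤ j ≤ 2n` the iterated
commutators of the periodic extension `P φ` of `φ` with the translations by `θ_0 b_0`, …,
`θ_{j-1} b_{j-1}`, `θ ∈ I^j`, form a continuous family `L (φ, θ)`, trivial on the boundary of the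
cube, and they detect the homotopy type of `G`: for a compact space `T`, a subset `T0` and two maps
`f, g` from `T` to the symplectomorphisms supported in a convex compact subset `K` of the open
fundamental box, equal to `1` on `T0`, the maps `f` and `g` are homotopic in `G` relative to `T0` if
and only if the families of commutators are homotopic in `S` relative to `T0 × I^j ∪ T × ∂I^j`. For
`T = I^k`, `T0 = ∂I^k` this embeds `π_k(G)` in `π_{k+j}(S)`. -/
theorem result (n N : ℕ) (b : Module.Basis (Fin N) ℝ (Phase n)) (K : Compacts (Phase n))
    (hK : (K : Set (Phase n)) ⊆ openBox b) :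
    ∃ P : C(SympSupp n K, TorusSymp b), (∀ φ, IsPer b K φ.1 (P φ)) ∧
      ∀ (j : ℕ) (hj : j ≤ N), ∃ L : C(SympSupp n K × (Fin j → I), TorusSymp b),
        IsCommMap b hj P L ∧ (∀ φ, ∀ θ ∈ Cube.boundary (Fin j), L (φ, θ) = 1) ∧
        (Convex ℝ (K : Set (Phase n)) → (interior (K : Set (Phase n))).Nonempty →
          ∀ (T : Type) [TopologicalSpace T] [CompactSpace T] (T0 : Set T),
            (∀ f : C(T, SympCt n), (∀ t ∈ T0, f t = 1) → ∃ g : C(T, SympSupp n K),
              TrivOn T0 g ∧ f.HomotopicRel ((inclMap K).comp g) T0) ∧
            ∀ f g : C(T, SympSupp n K), TrivOn T0 f → TrivOn T0 g →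
              (HomG T0 f g ↔ HomS L T0 f g)) :=
  main b K hK

end Pool.Agent.Results.MP_ec5dc5_gt.TorusLoops

/- Claim file of this former hand-in:
Proves: Let b = (b_1..b_2n) be a basis of R^{2n} with lattice L, G = Symp_ct(R^{2n}), G_K = elements of G supported in the compact set K in the open fundamental box, S = group of lifts to R^{2n} of symplectomorphisms of R^{2n}/L acting trivially on H_1, P: G_K -> S periodic extension, T_v = translation by v; for 0 <= j <= 2n the map c(g,s) = [T_{s_j b_j}, [.. [T_{s_1 b_1}, P g] ..]] from G_K x I^j to S is continuous, = 1 if some s_i is 0 or 1; if K is convex with interior points, T compact, T0 any subset, then every T -> G equal to 1 on T0 is homotopic rel T0 to a map into G_K, and f, g: T -> G_K equal to 1 on T0 are homotopic in G rel T0 iff c(f(t),s), c(g(t),s) are homotopic in S rel (T0 x I^j) u (T x bd I^j).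
Definitions: TorusSymp b = S with the C^infinity topology (jet), IsTorusSymp: psi, its inverse smooth, psi preserves omegaStd, psi(x + b_i) = psi(x) + b_i. IsPer: psi = phi on K, id off K + L. word, cm = iterated, single commutator. Phase n = R^{2n}; omegaStd = its form; SympCt n = G, SympSupp n K = G_K, incl inclusion: G_K has the topology induced by disp = phi - id from smooth maps supported in K, G the direct limit topology.
Relation: Partial result on Q1(a),(b): for T = I^k, pi_k(G) embeds in pi_{k+j}(S), k >= 0, j <= 2n, so (b) holds if pi_j(S) = 0 for one j <= 2n (j = 1: Ham(T^{2n}) simply connected). Decides neither. Analogues: Bass-Heller-Swan; Diff(T^n): Hsiang-Sharpe 1976, Hatcher 1978. Our TorusRetract, a different theorem: G is a homotopy retract of S.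
-/
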