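import Mathlib
import Pool.Agent.TOR.Final

open TopologicalSpace
open Pool.Agent.Helper17 Pool.Agent.TOR

namespace Pool.Agent.Results.MP_ec5dc5_gt.TorusRetract

/-- The group `G = Symp_ct(ℝ^{2n})` of compactly supported symplectomorphisms is a homotopy retract
of the group of symplectomorphisms of any flat torus `ℝ^{2n} / Λ`, where `Λ` is the lattice with
basis `b`: there is a continuous map `W` (unwrapping) from the torus group to `G` such that, for each
compact set `K` in the open fundamental box, the periodic extension `P` (wrapping) of the
symplectomorphisms supported in `K`, followed by `W`, is homotopic to the inclusion. -/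
theorem result (n N : ℕ) (b : Module.Basis (Fin N) ℝ (Phase n)) :
    ∃ W : C(TorusSymp b, SympCt n),
      ∀ K : Compacts (Phase n), (K : Set (Phase n)) ⊆ openBox b →
        ∃ P : C(SympSupp n K, TorusSymp b),
          (∀ φ, IsPer b K φ.1 (P φ)) ∧
          (W.comp P).Homotopic ⟨SympSupp.incl K, SympSupp.continuous_incl K⟩ := by
  obtain ⟨W, hW⟩ := main b
  refine ⟨W, fun K hK => ?_⟩
  obtain ⟨P, h1, h2, -⟩ := hW K hK
  exact ⟨P, h1, h2⟩

end Pool.Agent.Results.MP_ec5dc5_gt.TorusRetract

/- Claim file of this former hand-in:
Proves: Let b be a basis of R^{2n} with lattice L, G = Symp_ct(R^{2n}), G_K = elements of G supported in the compact set K, S = group of lifts to R^{2n} of the symplectomorphisms of the torus R^{2n}/L acting trivially on H_1; there is a continuous map W: S -> G such that for every compact K in the open fundamental box of L the periodic extension P: G_K -> S is continuous and W o P is homotopic to the inclusion G_K -> G.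
Definitions: TorusSymp b = S with the C^infinity topology (jet k = k-th derivative, uniformly on compacts), given by IsTorusSymp: psi and its inverse are smooth, psi preserves omegaStd, psi(x + b_i) = psi(x) + b_i. openBox b = points with coordinates in (0,1) in the basis b. IsPer: psi = phi on K, psi = id off K + L. Phase n = Euclidean R^{2n}; omegaStd = standard symplectic form; SympCt n = G; SympSupp n K = G_K, incl its inclusion; its topology is induced by disp = phi - id from smooth maps supported in K; G has the finest topology making all incl continuous.
Relation: Partial result on Q1(a),(b), which it does not decide: G is a homotopy retract of the symplectomorphism group of each closed flat torus. As pi_k(G_K) = pi_k(G) for a ball K (dilations), pi_k(G) is a direct summand of pi_k(S), and (b) holds for n iff the ball-supported symplectomorphisms of T^{2n} are isotopic to id in Symp(T^{2n}). Method: wrapping and unwrapping (Siebenmann; Hsiang-Sharpe 1976, Hatcher 1978; cf. Casals-Keating-Smith).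
-/
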